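import Pool.Agent.H.MP_4abaeb_an.B

set_option autoImplicit false

namespace Pool.Agent.Results.MP_4abaeb_an.No

open MvPolynomial Filter Topology Set Pool.Agent.H.MP_4abaeb_an

/-- some orbit is dense -/
def Hypercyclic {E : Type} [NormedAddCommGroup E] [NormedSpace ℂ E] (S : E →L[ℂ] E) : Prop :=
  ∃ x, Dense (range fun n : ℕ => (S ^ n) x)

lemma main {E : Type} [NormedAddCommGroup E] [NormedSpace ℂ E] [CompleteSpace E]
    (e : R →ₗ[ℂ] E) (hd : DenseRange e) (h0 : e 1 ≠ 0) (h1 : ∀ q, ‖e (X 1 * q)‖ ≤ ‖e q‖)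
    (h2 : ∀ k : ℕ, ∃ C, ∀ m q, ‖e (X 0 ^ m * q)‖ ≤ C / (k + 1) ^ m * ‖e q‖)
    (h4 : ∀ q y, HasSum (fun i : ℕ => (i.factorial : ℂ)⁻¹ • e (X 0 ^ i * q)) y → y = e (X 1 * q))
    (h3 : ∀ q, e q ∈ closure (range fun n : ℕ => e (ff ^ n))) : ∃ T : E →L[ℂ] E,
    spectrum ℂ T = {0} ∧ Hypercyclic (1 + T) ∧ ¬Hypercyclic (NormedSpace.exp T) := by
  obtain ⟨T, hT⟩ : ∃ T : E →L[ℂ] E, ∀ q, T (e q) = e (X 0 * q) :=
    ⟨(e ∘ₗ LinearMap.mulLeft ℂ (X 0)).extendOfNorm e, LinearMap.extendOfNorm_eq hd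
      ((h2 0).elim fun C h => ⟨C, fun q => by simpa using h 1 q⟩)⟩
  have pw : ∀ (S : E →L[ℂ] E) (p : R), (∀ q, S (e q) = e (p * q)) →
      ∀ n q, (S ^ n) (e q) = e (p ^ n * q) := fun S p h n => by
    induction n with
    | zero => simp
    | succ n ih => exact fun q => by rw [pow_succ, pow_succ, mul_assoc, ← ih, ← h]; rfl
  have nb : ∀ (S : E →L[ℂ] E) (C : ℝ), (∀ q, ‖S (e q)‖ ≤ C * ‖e q‖) → ∀ x, ‖S x‖ ≤ C * ‖x‖ :=
    fun S C h => hd.induction (by rintro _ ⟨q, rfl⟩; exact h q)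
      (isClosed_le (by fun_prop) (by fun_prop))
  have : Nontrivial E := ⟨_, _, h0⟩
  have p0 := norm_pos_iff.2 h0
  refine ⟨T, (spectrum.nonempty T).subset_singleton_iff.1 fun z hz => ?_, ⟨e 1, ?_⟩, fun ⟨x, h⟩ => ?_⟩
  · by_contra h
    have h : 0 < ‖z‖ := norm_pos_iff.2 h
    obtain ⟨k, hk⟩ := exists_nat_gt ‖z‖⁻¹
    obtain ⟨C, hC⟩ := h2 k
    have a : 1 < ‖z‖ * (k + 1) := by rw [← inv_mul_lt_iff₀ h]; linarith
    obtain ⟨m, hm⟩ := ((tendsto_pow_atTop_atTop_of_one_lt a).eventually_gt_atTop C).exists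
    have b := nb (T ^ m) _ fun q => pw T (X 0) hT m q ▸ hC m q
    have c := (spectrum.norm_le_norm_of_mem (spectrum.pow_mem_pow T m hz)).trans
      ((T ^ m).opNorm_le_bound (le_of_mul_le_mul_right
        (by simpa using (norm_nonneg _).trans (b (e 1))) p0) b)
    rw [norm_pow, le_div_iff₀ (by positivity), ← mul_pow] at c
    linarith
  · have := pw (1 + T) ff fun q => by simp [ff, hT, add_mul]
    simp only [this, mul_one]
    exact fun x => closure_minimal (by rintro _ ⟨q, rfl⟩; exact h3 q) isClosed_closure (hd x)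
  · have a := nb (NormedSpace.exp T) 1 fun q => by
      rw [h4 q (NormedSpace.exp T (e q)) (by
        simpa [pw T (X 0) hT] using (NormedSpace.exp_series_hasSum_exp' (𝕂 := ℂ) T).mapL
          (ContinuousLinearMap.apply ℂ E (e q))), one_mul]
      exact h1 q
    have b : ∀ n : ℕ, ‖(NormedSpace.exp T ^ n) x‖ ≤ ‖x‖ := fun n => by
      induction n with
      | zero => simp
      | succ n ih => rw [pow_succ']; exact (a _).trans ((one_mul _).trans_le ih)
    obtain ⟨y, hy⟩ := NormedSpace.exists_lt_norm ℂ E ‖x‖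
    exact hy.not_ge (closure_minimal (t := {y | ‖y‖ ≤ ‖x‖}) (by rintro _ ⟨n, rfl⟩; exact b n)
      (isClosed_le continuous_norm continuous_const) (h y))

theorem result : ∃ (E : Type) (_ : NormedAddCommGroup E) (_ : NormedSpace ℂ E)
    (_ : CompleteSpace E) (T : E →L[ℂ] E),
    spectrum ℂ T = {0} ∧ Hypercyclic (1 + T) ∧ ¬Hypercyclic (NormedSpace.exp T) := by
  obtain ⟨g, hg⟩ := exists_surjective_nat (List ((Fin 2 →₀ ℕ) × ℕ))
  obtain ⟨P, hP⟩ : ∃ P : List ((Fin 2 →₀ ℕ) × ℕ) → R,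
    P = fun l => (l.map fun a => monomial a.1 (TopologicalSpace.denseSeq ℂ a.2)).sum := ⟨_, rfl⟩
  obtain ⟨Φ, j, h0, h1, h2, h4, h3⟩ := emb fun r => P (g r.unpair.1)
  obtain ⟨e, he⟩ : ∃ e : R →ₗ[ℂ] (LinearMap.range Φ).topologicalClosure, ∀ q, e q = Φ q :=
    ⟨Φ.codRestrict _ fun q => Submodule.le_topologicalClosure _ ⟨q, rfl⟩, fun _ => rfl⟩
  have hn : ∀ q, ‖e q‖ = ‖Φ q‖ := fun q => he q ▸ rfl
  refine ⟨_, inferInstance, inferInstance, inferInstance, main e (fun x => ?_)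
    (fun h => h0 (by rw [← he, h]; rfl)) (by simpa only [hn]) (by simpa only [hn])
    (fun q y h => Subtype.ext ((h4 q y (by
      simpa [he] using h.mapL (Submodule.subtypeL _))).trans (he _).symm)) fun q => ?_⟩
  · rw [closure_subtype, ← range_comp, show Subtype.val ∘ e = Φ from funext he]
    exact x.2
  refine closure_minimal (s := range fun l => e (P l)) ?_ isClosed_closure ?_
  · rintro _ ⟨l, rfl⟩
    obtain ⟨i, rfl⟩ := hg l
    refine mem_closure_of_tendsto (f := fun r => e (ff ^ j (i.pair r))) (b := atTop)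
      (tendsto_iff_norm_sub_tendsto_zero.2 (squeeze_zero (g := fun r => 5 * (1 / 2 : ℝ) ^ r)
        (fun _ => norm_nonneg _) (fun r => ?_)
        (by simpa using (tendsto_pow_atTop_nhds_zero_of_lt_one one_half_pos.le
          one_half_lt_one).const_mul (5 : ℝ)))) (.of_forall fun r => ⟨_, rfl⟩)
    have := h3 (i.pair r)
    rw [Nat.unpair_pair, ← hn, map_sub] at this
    refine this.trans ?_
    gcongr 5 * ?_
    exact pow_le_pow_of_le_one (by norm_num) (by norm_num) (Nat.right_le_pair i r)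
  · induction q using MvPolynomial.induction_on' with
    | add p q hp hq =>
      rw [map_add]
      refine map_mem_closure₂ continuous_add hp hq ?_
      rintro _ ⟨a, rfl⟩ _ ⟨b, rfl⟩
      exact ⟨a ++ b, by simp [hP]⟩
    | monomial n a =>
      have k : ∀ a : ℂ, e (monomial n a) = a • e (monomial n 1) := fun a => by
        rw [← map_smul, smul_monomial, smul_eq_mul, mul_one]
      rw [k]
      refine map_mem_closure (f := fun a : ℂ => a • e (monomial n 1)) (by fun_prop)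
        (TopologicalSpace.denseRange_denseSeq ℂ a) ?_
      rintro _ ⟨i, rfl⟩
      exact ⟨[(n, i)], by simp [hP, ← k]⟩

end Pool.Agent.Results.MP_4abaeb_an.No
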